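import Pool.Agent.R235.BD.Grp3

/-!
# The bifurcation measure can charge the real representations

There are a holomorphic family of representations of the free group on two generators into
`PSL(2,ℂ)` over the open first quadrant and an admissible measure such that the bifurcation
measure gives positive mass to a compact set of real representations.
-/

set_option autoImplicit false

open MeasureTheory Filter Topology Set
open scoped ContDiff

namespace Pool.Agent.Results.MP_bed24d_an.RealMass

open Pool.Agent.R235.BD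

theorem result :
    ∃ (G : Type) (_ : Group G) (_ : Group.FG G) (U : Set ℂ) (ρ : ℂ → G →* PSL2C)
      (μ : MonoidAlgebra ℝ G) (χ : ℂ → ℝ),
      IsHolomorphicFamily U ρ ∧ Admissible μ ∧
      (∀ z ∈ U, IsLyapunovExponent μ (ρ z) (χ z)) ∧
      (∃ T : Measure ℂ, IsDDc U χ T) ∧
      ∃ K ⊆ realLocus U ρ, IsCompact K ∧ ∀ T : Measure ℂ, IsDDc U χ T → 0 < T K := by
  have hfg : Group.FG (FreeGroup Bool) := by
    rw [Group.fg_iff]
    exact ⟨Set.range FreeGroup.of, FreeGroup.closure_range_of Bool, Set.finite_range _⟩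
  have hnot : ∀ φ : ℂ → ℝ, tsupport φ ⊆ Quad → (0 : ℂ) ∉ tsupport φ :=
    fun φ h h0 => zero_notMem_quad (h h0)
  have hloc : LocallyIntegrableOn chi Quad := by
    rw [locallyIntegrableOn_iff isOpen_quad.isLocallyClosed]
    intro K hK hKc
    obtain ⟨C, _, hC⟩ := exists_bound_uu hKc (fun h => zero_notMem_quad (hK h))
    refine Measure.integrableOn_of_bounded (M := C) hKc.measure_lt_top.ne
      measurable_chi.aestronglyMeasurable ?_
    rw [ae_restrict_iff' hKc.measurableSet]
    exact Eventually.of_forall fun q hq => hC q hq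
  set K : Set ℂ := (fun θ : ℝ => Complex.exp ((θ : ℂ) * Complex.I)) '' Icc (1/2 : ℝ) (3/2) with hKdef
  have hK : IsCompact K := isCompact_Icc.image (by fun_prop)
  have hKU : K ⊆ Quad := by
    rintro _ ⟨θ, hθ, rfl⟩
    have hpi := Real.pi_gt_three
    have h1 : 0 < Real.cos θ := Real.cos_pos_of_mem_Ioo ⟨by linarith [hθ.1], by linarith [hθ.2]⟩
    have h2 : 0 < Real.sin θ := Real.sin_pos_of_pos_of_lt_pi (by linarith [hθ.1]) (by linarith [hθ.2])
    constructor
    · change 0 < (Complex.exp ((θ : ℂ) * Complex.I)).re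
      rw [Complex.exp_ofReal_mul_I_re]; exact h1
    · change 0 < (Complex.exp ((θ : ℂ) * Complex.I)).im
      rw [Complex.exp_ofReal_mul_I_im]; exact h2
  refine ⟨FreeGroup Bool, inferInstance, hfg, Quad, rho, mu, chi, family, admissible_mu,
    fun z _ => chi_spec z, ?_, K, ?_, hK, ?_⟩
  · exact exists_ddc isOpen_quad hloc fun φ hφ hc hs hp =>
      pair_nonneg (cd2 hφ) hc (hnot φ hs) hp
  · rintro _ ⟨θ, hθ, rfl⟩
    exact mem_realLocus (hKU ⟨θ, hθ, rfl⟩)
  · intro T hT
    have h1 := mass_ge isOpen_quad hT hK hKU (c := 8/5 - Real.pi / 5)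
      (fun φ hφ hc hs hp h1 => pair_pos (cd2 hφ) hc (hnot φ hs) hp
        (fun θ hθ => h1 _ ⟨θ, hθ, rfl⟩))
    have hpi := Real.pi_lt_four
    have h2 : 0 < (8/5 - Real.pi / 5) / (2 * Real.pi) := by
      have := Real.pi_pos
      apply div_pos _ (by positivity)
      linarith
    have h3 : 0 < (T K).toReal := lt_of_lt_of_le h2 h1
    exact (ENNReal.toReal_pos_iff.mp h3).1

end Pool.Agent.Results.MP_bed24d_an.RealMass
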